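import Pool.Agent.helper19.QP.SpecV
import Pool.Agent.helper7.IG.Basic

/-! # Project qp: row GEO (the finite geometric series) -/

set_option autoImplicit false

open Finset

noncomputable section

namespace Pool.Agent.QP

open Pool.Agent.helper7.IG (kk LL sig DDk MM im2 ps Vx Nb Frame)
open Pool.Agent.LQ (FF DD)

theorem GEO : GEO_stmt := by
  intro V a b I hb hu
  have h2 : (2 : LL) = 0 := CharTwo.two_eq_zero
  set u : LL := a / b with hudef
  have hv1 : V.valuation (1 + u) = 1 := by
    have := Valuation.map_add_eq_of_lt_left (V.valuation) (x := 1) (y := u) (by rw [map_one]; exact hu)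
    rw [this, map_one]
  have h1u : (1 : LL) + u ≠ 0 := by
    intro h
    rw [h, map_zero] at hv1
    exact zero_ne_one hv1
  have hkap : kap a b = 1 / (1 + u) := by
    unfold kap
    have : a + b = b * (1 + u) := by
      rw [hudef]
      field_simp
      ring
    rw [this]
    field_simp
  have key : kap a b + ∑ i ∈ range I, u ^ i = u ^ I / (1 + u) := by
    rw [hkap]
    have hg : (∑ i ∈ range I, u ^ i) * (u - 1) = u ^ I - 1 := geom_sum_mul u I
    rw [eq_div_iff h1u, add_mul, div_mul_cancel₀ _ h1u]
    linear_combination hg + (∑ i ∈ range I, u ^ i) * h2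
  rw [key, map_div₀, hv1, div_one, map_pow]

end Pool.Agent.QP
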