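import Pool.Agent.helper19.QP.SpecV
import Pool.Agent.helper7.IG.Basic

/-! # Project qp: row LDT (the leading term) -/

set_option autoImplicit false

open Finset

noncomputable section

namespace Pool.Agent.QP

open Pool.Agent.helper7.IG (kk LL sig DDk MM im2 ps Vx Nb Frame)
open Pool.Agent.LQ (FF DD)

lemma LDT_W (V : ValuationSubring LL) (r : LL) (hr : 1 < V.valuation r) :
    ∀ k : ℕ, V.valuation ((r + 1) ^ (2 * k + 1) + r ^ (2 * k + 1)) = V.valuation r ^ (2 * k) := by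
  have h2 : (2 : LL) = 0 := CharTwo.two_eq_zero
  have hr1 : V.valuation (r + 1) = V.valuation r :=
    Valuation.map_add_eq_of_lt_right (V.valuation) (x := 1) (y := r) (by rw [map_one]; exact hr) |> fun h => by
      rw [add_comm] ; exact h
  intro k
  induction k with
  | zero =>
    have : (r + 1) ^ (2 * 0 + 1) + r ^ (2 * 0 + 1) = (1 : LL) := by
      linear_combination r * h2
    rw [this, map_one]
    simp
  | succ k ih =>
    have e : (r + 1) ^ (2 * (k + 1) + 1) + r ^ (2 * (k + 1) + 1) =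
        r ^ 2 * ((r + 1) ^ (2 * k + 1) + r ^ (2 * k + 1)) + (r + 1) ^ (2 * k + 1) := by
      have h3 : ∀ s : LL, s ^ (2 * (k + 1) + 1) = s ^ (2 * k + 1) * s ^ 2 := fun s => by
        rw [← pow_add, show 2 * (k + 1) + 1 = 2 * k + 1 + 2 by omega]
      rw [h3, h3]
      generalize (r + 1) ^ (2 * k + 1) = S
      generalize r ^ (2 * k + 1) = R
      linear_combination (r * S) * h2
    rw [e]
    have hA : V.valuation (r ^ 2 * ((r + 1) ^ (2 * k + 1) + r ^ (2 * k + 1))) =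
        V.valuation r ^ (2 * (k + 1)) := by
      rw [map_mul, ih, map_pow, ← pow_add]
      ring_nf
    have hB : V.valuation ((r + 1) ^ (2 * k + 1)) = V.valuation r ^ (2 * k + 1) := by
      rw [map_pow, hr1]
    have hlt : V.valuation ((r + 1) ^ (2 * k + 1)) <
        V.valuation (r ^ 2 * ((r + 1) ^ (2 * k + 1) + r ^ (2 * k + 1))) := by
      rw [hA, hB]
      exact pow_lt_pow_right₀ hr (by omega)
    rw [Valuation.map_add_eq_of_lt_left (V.valuation) hlt, hA]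

lemma LDT_alg (r s : LL) (k : ℕ) (hr0 : r ≠ 0) (hs0 : s ≠ 0) :
    r * s ^ 3 / (r ^ 3 * s) ^ (2 * k) + r ^ 3 * s / (r * s ^ 3) ^ (2 * k) =
      (r * s) ^ (2 * k + 1) * (s ^ (2 * k + 1) + r ^ (2 * k + 1)) ^ 2 / ((r * s) ^ 4) ^ (2 * k) := by
  have h2 : (2 : LL) = 0 := CharTwo.two_eq_zero
  have hsq : (s ^ (2 * k + 1) + r ^ (2 * k + 1)) ^ 2 = (s ^ 2) ^ (2 * k + 1) + (r ^ 2) ^ (2 * k + 1) := by
    have a1 : (s ^ 2) ^ (2 * k + 1) = (s ^ (2 * k + 1)) ^ 2 := by rw [← pow_mul, ← pow_mul, mul_comm]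
    have a2 : (r ^ 2) ^ (2 * k + 1) = (r ^ (2 * k + 1)) ^ 2 := by rw [← pow_mul, ← pow_mul, mul_comm]
    rw [a1, a2]
    generalize s ^ (2 * k + 1) = S
    generalize r ^ (2 * k + 1) = R
    linear_combination (S * R) * h2
  rw [hsq]
  have hy0 : (r * s ^ 3) ^ (2 * k) ≠ 0 := pow_ne_zero _ (mul_ne_zero hr0 (pow_ne_zero _ hs0))
  have hz0 : (r ^ 3 * s) ^ (2 * k) ≠ 0 := pow_ne_zero _ (mul_ne_zero (pow_ne_zero _ hr0) hs0)
  have hyz : ((r * s) ^ 4) ^ (2 * k) = (r ^ 3 * s) ^ (2 * k) * (r * s ^ 3) ^ (2 * k) := by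
    rw [← mul_pow]
    have : (r * s) ^ 4 = r ^ 3 * s * (r * s ^ 3) := by ring
    rw [this]
  rw [hyz, div_add_div _ _ hz0 hy0, div_left_inj' (mul_ne_zero hz0 hy0)]
  have b1 : (r * s) ^ (2 * k + 1) * ((s ^ 2) ^ (2 * k + 1) + (r ^ 2) ^ (2 * k + 1)) =
      (r * s * s ^ 2) ^ (2 * k + 1) + (r * s * r ^ 2) ^ (2 * k + 1) := by
    rw [mul_pow (r * s) (s ^ 2), mul_pow (r * s) (r ^ 2), mul_add]
  rw [b1]
  have c1 : r * s * s ^ 2 = r * s ^ 3 := by ring
  have c2 : r * s * r ^ 2 = r ^ 3 * s := by ring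
  rw [c1, c2, pow_succ (r * s ^ 3) (2 * k), pow_succ (r ^ 3 * s) (2 * k)]
  generalize (r * s ^ 3) ^ (2 * k) = A
  generalize (r ^ 3 * s) ^ (2 * k) = B
  generalize r * s ^ 3 = y
  generalize r ^ 3 * s = z
  ring

theorem LDT : LDT_stmt := by
  intro V r k hk hr
  have h2 : (2 : LL) = 0 := CharTwo.two_eq_zero
  have hr1 : V.valuation (r + 1) = V.valuation r := by
    have := Valuation.map_add_eq_of_lt_right (V.valuation) (x := 1) (y := r) (by rw [map_one]; exact hr)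
    rw [add_comm]
    exact this
  have hg0 : V.valuation r ≠ 0 := ne_of_gt (lt_trans zero_lt_one hr)
  have hr0 : r ≠ 0 := fun h => hg0 (by rw [h, map_zero])
  have hr10 : r + 1 ≠ 0 := fun h => hg0 (by rw [← hr1, h, map_zero])
  have e : r * (r + 1) ^ 3 / (r ^ 3 * (r + 1)) ^ (2 * k) + r ^ 3 * (r + 1) / (r * (r + 1) ^ 3) ^ (2 * k) =
      (r * (r + 1)) ^ (2 * k + 1) * ((r + 1) ^ (2 * k + 1) + r ^ (2 * k + 1)) ^ 2 /
        ((r * (r + 1)) ^ 4) ^ (2 * k) := LDT_alg r (r + 1) k hr0 hr10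
  rw [e, map_div₀, map_mul, map_pow, map_pow, map_pow, map_pow, map_mul, hr1, LDT_W V r hr k]
  have hg : V.valuation r * V.valuation r = V.valuation r ^ 2 := (sq _).symm
  rw [hg, ← pow_mul, ← pow_mul, ← pow_mul, ← pow_mul, ← pow_add, div_mul_eq_mul_div, ← pow_add]
  rw [div_eq_one_iff_eq (pow_ne_zero _ hg0)]
  congr 1
  omega

end Pool.Agent.QP
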