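import Pool.Agent.helper19.QP.SpecV

/-! # Project qp: row PLC (the place) -/

set_option autoImplicit false

open Finset

noncomputable section

namespace Pool.Agent.QP

open Pool.Agent.helper7.IG (kk LL sig DDk MM im2 ps Vx Nb Frame)
open Pool.Agent.LQ (FF DD)

theorem PLC : PLC_stmt := by
  intro N hN
  have hx : sig N 1 UU ∉ (integralClosure kk LL).toSubring := by
    intro h
    have h' : IsIntegral kk (sig N 1 UU) := h
    have hd := IsAlgClosed.degree_eq_one_of_irreducible kk (minpoly.irreducible h')
    obtain ⟨c, hc⟩ := minpoly.mem_range_of_degree_eq_one kk _ hd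
    have h1 : (sig N 1 UU).coeff ((N : ℤ) * 1) = 1 := by
      rw [Pool.Agent.helper7.IG.sig_coeff_mul hN]
      have h3 : (UU).coeff (1 : ℤ) = 1 := by
        have := Pool.Agent.helper7.IG.ps_coeff_nat (fun n => ((#{m ∈ n.divisors | m.Coprime 6} : ℕ) : kk)) 1
        unfold UU
        have h4 : (#{m ∈ (1 : ℕ).divisors | m.Coprime 6} : ℕ) = 1 := by decide
        rw [show (1 : ℤ) = ((1 : ℕ) : ℤ) from rfl, this, h4, Nat.cast_one]
      rw [h3]
      simp
    have h2 : (algebraMap kk LL c).coeff ((N : ℤ) * 1) = 0 := by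
      have h0 : algebraMap kk LL c = HahnSeries.C c := rfl
      rw [h0, HahnSeries.C_apply]
      apply HahnSeries.coeff_single_of_ne
      simpa using hN
    rw [hc, h1] at h2
    exact one_ne_zero h2
  obtain ⟨V, hV, hxV⟩ := Subring.exists_le_valuationSubring_of_isIntegrallyClosedIn hx
  exact ⟨V, fun c => hV ((integralClosure kk LL).algebraMap_mem c), hxV⟩

end Pool.Agent.QP
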