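import Pool.Agent.helper30.QP.SpecK

/-! # Project qs (Theorem Q*): row ORB (the orbit) -/

set_option autoImplicit false

open Polynomial Pool.Agent.helper7.IG

noncomputable section

namespace Pool.Agent.QP

theorem ORB (hIDX : IDX_stmt) (hORA : ORA_stmt) (hANF : ANF_stmt) : ORB_stmt := by
  classical
  intro N hN hsq
  obtain ⟨C, hC⟩ := hIDX N hN
  refine ⟨C, fun F l hF hl hl2 hl3 hNl => ?_⟩
  obtain ⟨B0, hB0, hO⟩ := hORA F N l hF hN hsq hl hl2 hl3 hNl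
  refine ⟨B0, hB0, fun Q Φ B hB hBB => ?_⟩
  obtain ⟨T, hT, hTm⟩ := hC Φ B hB
  have hBne : B ≠ 0 := by
    rintro rfl
    simp at hB
  obtain ⟨-, hcard⟩ := hANF l B hl hBne
  let S : Finset Φ.A := T.biUnion fun t =>
    if h : ∃ g : Φ.A ≃ₐ[kk] Φ.A, g (Φ.D (B, 1)) = Φ.D (B, 1) ∧ tup Φ B N g = t then
      (AN l B).image fun u => (Classical.choose h) (Φ.cl (YU (PN N F) Q l B u)) else ∅
  have hS : S.card ≤ C * (l + 1) := by
    calc S.card ≤ T.card * (l + 1) := by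
          apply Finset.card_biUnion_le_card_mul
          intro t _
          split_ifs with h
          · exact le_trans Finset.card_image_le hcard
          · simp
      _ ≤ C * (l + 1) := Nat.mul_le_mul_right _ hT
  have hmem : ∀ g : Φ.A ≃ₐ[kk] Φ.A, g (Φ.D (B, 1)) = Φ.D (B, 1) →
      g (Φ.cl (YU (PN N F) Q l B (l * B, 1))) ∈ S := by
    intro g' hg'
    have hex : ∃ g : Φ.A ≃ₐ[kk] Φ.A, g (Φ.D (B, 1)) = Φ.D (B, 1) ∧ tup Φ B N g = tup Φ B N g' := ⟨g', hg', rfl⟩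
    refine Finset.mem_biUnion.2 ⟨tup Φ B N g', hTm g' hg', ?_⟩
    rw [dif_pos hex]
    obtain ⟨hg1, hg2⟩ := Classical.choose_spec hex
    set g := Classical.choose hex
    have hfx : FxN Φ (g'.trans g.symm) B N := by
      intro M η hM hη
      have h1 := congrFun hg2 (M, η)
      unfold tup at h1
      rw [if_pos ⟨hM, hη⟩, if_pos ⟨hM, hη⟩] at h1
      rw [AlgEquiv.trans_apply, ← h1, AlgEquiv.symm_apply_apply]
    obtain ⟨u, hu, hu'⟩ := hO Q Φ (g'.trans g.symm) B hB hBB hfx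
    refine Finset.mem_image.2 ⟨u, hu, ?_⟩
    rw [← hu', AlgEquiv.trans_apply, AlgEquiv.apply_symm_apply]
  refine ⟨S.filter fun o => ∃ g : Φ.A ≃ₐ[kk] Φ.A, g (Φ.D (B, 1)) = Φ.D (B, 1) ∧
    o = g (Φ.cl (YU (PN N F) Q l B (l * B, 1))), le_trans (Finset.card_filter_le _ _) hS, fun o => ?_⟩
  rw [Finset.mem_filter]
  constructor
  · exact fun h => h.2
  · rintro ⟨g, hg, rfl⟩
    exact ⟨hmem g hg, g, hg, rfl⟩

end Pool.Agent.QP
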